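import Mathlib

namespace Pool.Agent.Results.MP_d3f0ca_an.Lower

open Set Real

lemma root (p : Polynomial ℝ) (a b lo hi : ℝ) (ha : a ∈ Ioo lo hi) (hb : b ∈ Ioo lo hi)
    (h1 : 0 < p.eval a) (h2 : p.eval b < 0) : ∃ z ∈ Ioo lo hi, p.eval z = 0 := by
  obtain ⟨z, hz, e⟩ := intermediate_value_uIcc (a := a) (b := b) (f := fun t => p.eval t)
    p.continuous.continuousOn (show (0 : ℝ) ∈ uIcc _ _ from mem_uIcc.2 (Or.inr ⟨h2.le, h1.le⟩))
  exact ⟨z, ordConnected_Ioo.uIcc_subset ha hb hz, e⟩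

/-- No constant `c ≤ 1` is admissible. -/
theorem result (c : ℝ) (hc0 : 0 < c) (hc : c ≤ 1) :
    ¬ (∀ f : ℝ → ℝ, ContinuousOn f (Set.Icc (-1) 1) → ∀ α : ℝ, 0 < α → ∀ n : ℕ, 2 ≤ n →
      ∃ p : Polynomial ℝ, p.natDegree ≤ n ∧ ∀ x ∈ Set.Icc (-1 : ℝ) 1,
        max (sInf ((fun t => max (|x - t| / α) |f x - p.eval t|) '' Set.Icc (-1) 1))
            (sInf ((fun t => max (|x - t| / α) |f t - p.eval x|) '' Set.Icc (-1) 1)) ≤
          c / α * (Real.log n / (n : ℝ) ^ 2 + √(1 - x ^ 2) / n *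
            Real.log (Real.exp 1 + sSup ((fun y => |f y|) '' Set.Icc (-1) 1) * n))) := by
  intro H
  obtain ⟨p, hp, H⟩ := H (fun x => 1 / 1000 * cos (100 * π * x)) (by fun_prop) 10000
    (by norm_num) 2 le_rfl
  set M := sSup ((fun y => |1 / 1000 * cos (100 * π * y)|) '' Set.Icc (-1 : ℝ) 1) with hM
  have M0 : 0 ≤ M := Real.sSup_nonneg (by rintro _ ⟨y, _, rfl⟩; exact abs_nonneg _)
  have M1 : M ≤ 1 / 1000 := Real.sSup_le (by
    rintro _ ⟨y, _, rfl⟩
    have := abs_cos_le_one (100 * π * y)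
    simp only [abs_mul]
    rw [abs_of_pos (by norm_num : (0 : ℝ) < 1 / 1000)]
    linarith) (by norm_num)
  have e1 : 1 ≤ exp 1 := one_le_exp zero_le_one
  have L1 : log (exp 1 + M * (2 : ℕ)) ≤ 1.002 := by
    have h := log_le_sub_one_of_pos (x := (exp 1 + M * (2 : ℕ)) / exp 1) (by positivity)
    rw [log_div (by positivity) (by positivity), log_exp, add_div, div_self (by positivity)] at h
    have : M * (2 : ℕ) / exp 1 ≤ M * (2 : ℕ) := div_le_self (by positivity) e1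
    push_cast at *
    linarith
  have L0 : 0 ≤ log (exp 1 + M * (2 : ℕ)) := log_nonneg (by push_cast; linarith)
  have l2 := log_two_lt_d9
  have l0 : 0 ≤ log 2 := log_nonneg one_le_two
  have get : ∀ (j : ℤ) (x s : ℝ), x = j / 100 → x ∈ Icc (-1 : ℝ) 1 → 0 ≤ s → s ≤ 1 → 1 - x ^ 2 ≤ s ^ 2 →
      ∃ t, |x - t| < 0.174 + 0.501 * s ∧ |1 / 1000 * cos (j * π) - p.eval t| < 1 / 10000 := by
    intro j x s hj hx s0 s1 hs
    have h := (le_max_left _ _).trans (H x hx)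
    have q : √(1 - x ^ 2) ≤ s := sqrt_le_iff.2 ⟨s0, hs⟩
    have q0 := sqrt_nonneg (1 - x ^ 2)
    have b : c / 10000 * (log (2 : ℕ) / ((2 : ℕ) : ℝ) ^ 2 + √(1 - x ^ 2) / (2 : ℕ) *
        log (exp 1 + M * (2 : ℕ))) < (0.174 + 0.501 * s) / 10000 := by
      generalize log (exp 1 + M * (2 : ℕ)) = L at L0 L1 ⊢
      push_cast
      have u : √(1 - x ^ 2) * L ≤ s * 1.002 := mul_le_mul q L1 L0 s0
      have u0 : 0 ≤ √(1 - x ^ 2) * L := mul_nonneg q0 L0
      have v : c * (log 2 / 2 ^ 2 + √(1 - x ^ 2) / 2 * L) ≤ log 2 / 2 ^ 2 + √(1 - x ^ 2) / 2 * L :=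
        mul_le_of_le_one_left (by linarith) hc
      linarith
    obtain ⟨_, ⟨t, _, rfl⟩, ht⟩ := exists_lt_of_csInf_lt ⟨_, mem_image_of_mem _ hx⟩ (h.trans_lt b)
    rw [max_lt_iff] at ht
    refine ⟨t, by linarith [ht.1], ?_⟩
    rw [show (j : ℝ) * π = 100 * π * x by rw [hj]; ring]
    linarith [ht.2]
  have ev : ∀ k : ℤ, cos (((2 * k : ℤ) : ℝ) * π) = 1 := fun k => by
    rw [← cos_int_mul_two_pi k]; congr 1; push_cast; ring
  have od : ∀ k : ℤ, cos (((2 * k + 1 : ℤ) : ℝ) * π) = -1 := fun k => by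
    rw [← cos_int_mul_two_pi_add_pi k]; congr 1; push_cast; ring
  obtain ⟨t1, a1, b1⟩ := get (2 * (-50)) (-1) 0 (by norm_num) (by norm_num) (by norm_num)
    (by norm_num) (by norm_num)
  obtain ⟨t2, a2, b2⟩ := get (2 * (-50) + 1) (-0.99) 0.1411 (by norm_num) (by norm_num) (by norm_num)
    (by norm_num) (by norm_num)
  obtain ⟨t3, a3, b3⟩ := get (2 * 0) 0 1 (by norm_num) (by norm_num) (by norm_num)
    (by norm_num) (by norm_num)
  obtain ⟨t4, a4, b4⟩ := get (2 * 0 + 1) 0.01 1 (by norm_num) (by norm_num) (by norm_num)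
    (by norm_num) (by norm_num)
  obtain ⟨t5, a5, b5⟩ := get (2 * 50) 1 0 (by norm_num) (by norm_num) (by norm_num)
    (by norm_num) (by norm_num)
  obtain ⟨t6, a6, b6⟩ := get (2 * 49 + 1) 0.99 0.1411 (by norm_num) (by norm_num) (by norm_num)
    (by norm_num) (by norm_num)
  rw [ev] at b1 b3 b5
  rw [od] at b2 b4 b6
  rw [abs_lt] at a1 a2 a3 a4 a5 a6 b1 b2 b3 b4 b5 b6
  obtain ⟨z1, h1, r1⟩ := root p t1 t2 (-2) (-0.7) ⟨by linarith, by linarith⟩
    ⟨by linarith, by linarith⟩ (by linarith) (by linarith)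
  obtain ⟨z2, h2, r2⟩ := root p t3 t4 (-0.7) 0.7 ⟨by linarith, by linarith⟩
    ⟨by linarith, by linarith⟩ (by linarith) (by linarith)
  obtain ⟨z3, h3, r3⟩ := root p t5 t6 0.7 2 ⟨by linarith, by linarith⟩
    ⟨by linarith, by linarith⟩ (by linarith) (by linarith)
  have z : p = 0 := by
    apply Polynomial.eq_zero_of_natDegree_lt_card_of_eval_eq_zero' p {z1, z2, z3}
    · intro i hi
      simp only [Finset.mem_insert, Finset.mem_singleton] at hi
      rcases hi with rfl | rfl | rfl <;> assumption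
    · rw [Finset.card_eq_three.2 ⟨z1, z2, z3, (h1.2.trans h2.1).ne,
        (by linarith [h1.2, h3.1] : z1 < z3).ne, (h2.2.trans h3.1).ne, rfl⟩]
      omega
  rw [z, Polynomial.eval_zero] at b1
  linarith [b1.2]

end Pool.Agent.Results.MP_d3f0ca_an.Lower
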